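import Pool.Agent.Run7.h414.DP.Fam
import Pool.Agent.Run7.h414.DP.TL
import Pool.Agent.Results.MP_dd84fd_nt.QuadraticNeighbourhoods

/-!
# Goldbach representations of the multiples of random moduli with determinantal digits

The digits of the random integer `v` are given by a determinantal random set `S` of positions (a determinantal point process
with an arbitrary Hermitian kernel): the digit number `i` is `y i` if `i ∈ S` and `x i ≠ y i` otherwise. Examples (their
existence is not used and not formalised): the edges of a uniform spanning tree of a graph with `k` edges; stationary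
determinantal processes with any symbol which is not almost everywhere `0` or almost everywhere `1` (for example the discrete
sine process with any density); independent digits; and all the events for such processes whose probability is at least
`1 / k ^ t`, for example a prescribed number of elements of `S`.

Definitions used (in `Pool.Agent.Run7.h414.DP.Law` and `Pool.Agent.Run7.h414.DP.Fam`): `DetLaw`, `GoodPos`, `DetDigits`.

Method: the characteristic function is `det (1 + D A)`; the inequality `|det N|² ≤ exp (tr N* N - k)` for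
`N = 1 + B D B*`, `A = B* B`, bounds it by `exp (- E)` with an energy `E` which is at least a constant times the number of
the good positions near the places where the frequency is far from the rational numbers with small denominators. So all the
multiples of the random integer have a thin large spectrum. The passage from this to the
representations as sums of two primes is from the starting files (`Pool.Agent.N625.PT.t_windows`).

The statement uses the following definitions from `Pool.Agent.H560R3.GB`: `g m`: the number of ordered representations of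
`m` as a sum of two primes; `sing m`: the singular series `2 C₂ ∏_{p ∣ m, p > 2} (p - 1) / (p - 2)`, where
`C₂ = ∏_{p > 2} (1 - 1 / (p - 1) ^ 2)`. The sum `∑ v ∈ range (b ^ k), (if P v then 0 else p v)` is the `p`-weight of the
integers `v < b ^ k` without the property `P`.
-/

set_option autoImplicit false

namespace Pool.Agent.Results.MP_92f640_nt.DeterminantalModuli

open Finset Pool.Agent.H560R3.GB
open Pool.Agent.Run7.h414.DP (DetDigits fam_dc dom_le dc_tcls)

/-- `g n ≥ 1.3 n / log ^ 2 n`, and `g n` is `sing n * n / log ^ 2 n` up to a relative error of at most `ε`. -/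
def Rep (ε : ℝ) (n : ℕ) : Prop :=
  13 / 10 * ((n : ℝ) / Real.log n ^ 2) ≤ g n ∧
    |(g n : ℝ) - sing n * ((n : ℝ) / Real.log n ^ 2)| ≤ ε * (sing n * ((n : ℝ) / Real.log n ^ 2))

lemma rep_of (ε : ℝ) (m : ℕ) (hm : 3 ≤ m) (hw : Pool.Agent.W93.PG.WinP (min ε (1 / 200)) 1 m) : Rep ε m := by
  obtain ⟨h1, h2⟩ := MP_dd84fd_nt.QuadraticNeighbourhoods.holds_of 1 ε m hm hw
  refine ⟨h1, ?_⟩
  have hmr : (3 : ℝ) ≤ m := by exact_mod_cast hm
  have hlog : 1 ≤ Real.log m := by
    rw [Real.le_log_iff_exp_le (by linarith)]
    linarith [Real.exp_one_lt_d9]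
  have h3 := (h2 0 m (by omega) le_rfl (by
    rw [Nat.cast_zero, sub_zero]
    exact div_le_self (by linarith) (one_le_pow₀ hlog))).2
  rw [MP_dd84fd_nt.QuadraticNeighbourhoods.G_full, Nat.cast_zero, sub_zero] at h3
  exact h3

open Classical in
/-- **The multiples of the moduli with determinantal digits.** Let `b ≥ 2`, `L`, `η > 0`, `t`, `κ ≠ 0`, `B`, `J`, `W`, `U` and
`ε > 0` be fixed and let `k` be large. Let `p` be dominated, up to the factor `k ^ t`, by the distribution of an integer
with `k` determinantal digits (`DetDigits b L η t k p`), and let `c` be any integer with `|c| ≤ B b ^ k`. Then the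
`p`-weight of the integers `v < b ^ k` without the following property is at most `1 / k ^ U`: ALL the integers `q ≥ 1` at a
distance of at most `k ^ W` from `c + κ v` have no exceptional even multiples up to `k ^ J q`: every even integer `n` with
`0 < n ≤ k ^ J q` and `q ∣ n` satisfies `Rep ε n`. -/
theorem result (b L : ℕ) (hb : 2 ≤ b) (η : ℝ) (hη : 0 < η) (t : ℕ) (κ : ℤ) (hκ : κ ≠ 0)
    (B J W U : ℕ) (ε : ℝ) (hε : 0 < ε) :
    ∃ k₀ : ℕ, ∀ k : ℕ, k₀ ≤ k → ∀ p : ℕ → ℝ, DetDigits b L η t k p → ∀ c : ℤ, |c| ≤ B * (b : ℤ) ^ k →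
      ∑ v ∈ range (b ^ k), (if ∀ q : ℕ, 1 ≤ q → |(q : ℤ) - (c + κ * v)| ≤ (k : ℤ) ^ W →
        ∀ n : ℕ, 0 < n → Even n → q ∣ n → n ≤ k ^ J * q → Rep ε n then 0 else p v) ≤ 1 / (k : ℝ) ^ U := by
  obtain ⟨k₀, hmain⟩ := Pool.Agent.N625.PT.t_windows
    (dc_tcls b L hb η hη κ hκ) B J W 1 (U + t) 3 (min ε (1 / 200)) (lt_min hε (by norm_num)) (Rep ε)
    (fun m hm _ hw => rep_of ε m hm hw)
  refine ⟨k₀ + 1, fun k hk p hp c hc => ?_⟩
  obtain ⟨μ, hμ, hpμ⟩ := fam_dc hp
  refine dom_le (by omega) hpμ _ _ (fun v h => h) (hmain k (by omega) μ hμ c hc (fun v => ∀ q : ℕ, 1 ≤ q →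
    |(q : ℤ) - (c + κ * v)| ≤ (k : ℤ) ^ W → ∀ n : ℕ, 0 < n → Even n → q ∣ n → n ≤ k ^ J * q → Rep ε n) ?_)
  intro v hv
  push Not at hv
  obtain ⟨q, hq1, hq2, n, hn0, hev, ⟨h, rfl⟩, hn2, hbad⟩ := hv
  have hh1 : 1 ≤ h := by
    rcases Nat.eq_zero_or_pos h with rfl | h0
    · simp at hn0
    · exact h0
  have hh2 : h ≤ k ^ J := by
    rw [mul_comm] at hn2
    exact Nat.le_of_mul_le_mul_right hn2 hq1
  refine ⟨h, hh1, hh2, (q : ℤ) - (c + κ * v), hq2, ?_⟩
  have e : (h : ℤ) * (c + ((q : ℤ) - (c + κ * v)) + κ * v) = ((q * h : ℕ) : ℤ) := by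
    push_cast
    ring
  rw [e]
  refine ⟨by exact_mod_cast hn0, by exact_mod_cast hev.two_dvd, ?_⟩
  rw [Int.toNat_natCast]
  exact hbad

end Pool.Agent.Results.MP_92f640_nt.DeterminantalModuli
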