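import Pool.Agent.Run7.h27.MK.MultFin
import Pool.Agent.N384.MQ.Quot
import Pool.Agent.Results.MP_dd84fd_nt.QuadraticNeighbourhoods

/-!
# Goldbach representations of the multiples of all moduli near the members of thin families inside intervals of length
`Q ^ (1/3) log ^ C Q`

The statement uses the following definitions from `Pool.Agent.H560R3.GB`: `g m`: the number of ordered representations of
`m` as a sum of two primes; `sing m`: the singular series `2 C₂ ∏_{p ∣ m, p > 2} (p - 1) / (p - 2)`, where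
`C₂ = ∏_{p > 2} (1 - 1 / (p - 1) ^ 2)`.
From Mathlib: `ZMod.stdAddChar`: the additive character `j ↦ exp (2 π i j / M)` of the integers modulo `M`; `ZMod.val`: the
least residue.

Method (project MK of this run, by helper18, 27, 284, 364, 373, 477, 609, 757, 777, 788, 794, 880, 931 and others): the von
Mangoldt function minus a sieve model has small exponential sums at ALL frequencies in almost all intervals of length
`x ^ (1/3) log ^ C x`; a discrete form of Gallagher's lemma turns this into mean squares of the exponential sum over short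
arcs, and these control the correlations at the differences `h (c + κ y_i) - n` for almost all members `y_i` of a short
family, for all small multiples `h` at once. The deterministic passage to Goldbach representations is from the starting
files (`Pool.Agent.W93.PG`).
-/

set_option autoImplicit false

namespace Pool.Agent.Results.MP_92f640_nt.ShortFamilies

open Finset Filter Pool.Agent.H560R3.GB

/-- The Fourier coefficients of the residues `y i`, `i ∈ s`, modulo `q` at the nonzero frequencies are at most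
`η` times the number of the residues: `|∑ i ∈ s, e(h y_i / q)| ≤ η |s|` for all `h ≠ 0` modulo `q`. -/
def Flat {ι : Type} (q : ℕ) [NeZero q] (η : ℝ) (s : Finset ι) (y : ι → ZMod q) : Prop :=
  ∀ h : ZMod q, h ≠ 0 → ‖∑ i ∈ s, (ZMod.stdAddChar (h * y i) : ℂ)‖ ≤ η * s.card

/-- `g n ≥ 1.3 n / log ^ 2 n`, and `g n` is `sing n * n / log ^ 2 n` up to a relative error of at most `ε`. -/
def Rep (ε : ℝ) (n : ℕ) : Prop :=
  13 / 10 * ((n : ℝ) / Real.log n ^ 2) ≤ g n ∧
    |(g n : ℝ) - sing n * ((n : ℝ) / Real.log n ^ 2)| ≤ ε * (sing n * ((n : ℝ) / Real.log n ^ 2))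

lemma rep_of (ε : ℝ) (m : ℕ) (hm : 3 ≤ m) (hw : Pool.Agent.W93.PG.WinP (min ε (1 / 200)) 1 m) : Rep ε m := by
  obtain ⟨h1, h2⟩ := MP_dd84fd_nt.QuadraticNeighbourhoods.holds_of 1 ε m hm hw
  refine ⟨h1, ?_⟩
  have hmr : (3 : ℝ) ≤ m := by exact_mod_cast hm
  have hlog : 1 ≤ Real.log m := by
    rw [Real.le_log_iff_exp_le (by linarith)]
    linarith [Real.exp_one_lt_d9]
  have h3 := (h2 0 m (by omega) le_rfl (by
    rw [Nat.cast_zero, sub_zero]
    exact div_le_self (by linarith) (one_le_pow₀ hlog))).2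
  rw [MP_dd84fd_nt.QuadraticNeighbourhoods.G_full, Nat.cast_zero, sub_zero] at h3
  exact h3

/-- The modulus `q` has no exceptional even multiples up to `y q`: every even integer `n` with `0 < n ≤ y q` and `q ∣ n`
satisfies `Rep ε n`. -/
def NoExceptions (ε y : ℝ) (q : ℕ) : Prop := ∀ n : ℕ, 0 < n → Even n → q ∣ n → (n : ℝ) ≤ y * q → Rep ε n

/-- ALL the moduli `q ≥ Q / log ^ W Q` with `|q - x| ≤ log ^ W Q` have no exceptional even multiples up to `q log ^ J Q`. -/
def GoodPlace (ε : ℝ) (J W Q : ℕ) (x : ℤ) : Prop :=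
  ∀ q : ℕ, (Q : ℝ) / Real.log Q ^ W ≤ q → |(q : ℝ) - x| ≤ Real.log Q ^ W → NoExceptions ε (Real.log Q ^ J) q

lemma good_of {ε : ℝ} {J W Q : ℕ} {x : ℤ} (hl : 0 < Real.log Q) (hQ : 3 * Real.log Q ^ W ≤ Q)
    (h : Pool.Agent.Run7.h27.MK.GoodMod (min ε (1 / 200)) 1 J W Q x) : GoodPlace ε J W Q x := by
  intro q hq1 hq2 n hn0 hn2 hqn hnJ
  apply rep_of ε n _ (h q hq1 hq2 n hn0 hn2.two_dvd hqn hnJ)
  have h1 : (3 : ℝ) ≤ q := by
    refine le_trans ?_ hq1
    rw [le_div_iff₀ (by positivity)]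
    exact hQ
  have h2 : 3 ≤ q := by exact_mod_cast h1
  exact h2.trans (Nat.le_of_dvd hn0 hqn)

open Classical in
/-- **(1)** Let `κ ≠ 0`, `J`, `W`, `U` and `ε > 0` be fixed. There are `V` and `C` such that the following holds for all large
integers `Q`. Let `y i`, `i ∈ s`, be a finite family of residues modulo an arbitrary integer `M` with
`Q ^ (1/3) log ^ C Q ≤ M ≤ Q` whose Fourier coefficients at the nonzero frequencies are at most `|s| / log ^ V Q`, and let
`|c| ≤ Q`. Then all the `i ∈ s`, with at most `|s| / log ^ U Q` exceptions, have the following property: ALL the moduli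
`q ≥ Q / log ^ W Q` with `|q - (c + κ y_i)| ≤ log ^ W Q` (with the least residue `0 ≤ y_i < M`) have no exceptional even
multiples up to `q log ^ J Q`: every even `m` with `0 < m ≤ q log ^ J Q` and `q ∣ m` is the sum of two primes in at least
`1.3 m / log ^ 2 m` ways, and in the number of ways which Hardy and Littlewood expect up to a relative error of at most `ε`.

**(2)** The same holds near the values `F(k)`, `0 ≤ k < K`, up to `K / log ^ U Q` exceptions, of every integer polynomial `F` of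
fixed degree `d ≥ 1` with a leading coefficient of absolute value at most `log ^ b Q` (the other coefficients are arbitrary),
if `K ^ d ≥ Q ^ (1/3) log ^ C Q` and `|F(k)| ≤ Q` for `0 ≤ k < K`. For example near `(m + k) ^ 2`, `k < Q ^ (1/6) log ^ C Q`.

**(3)** The families in (1) can be very thin (a lemma of the starting files): modulo all large primes `p` the quotients `j / r` of
the integers `0 ≤ j < S` by the primes `r ≤ R` satisfy the hypothesis if `log ^ (V + 4) p ≤ R < p` and `R ^ 2 ≤ S`, so that a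
power of `log p` members suffices. -/
theorem result :
    (∀ (κ : ℤ), κ ≠ 0 → ∀ (J W U : ℕ) (ε : ℝ), 0 < ε → ∃ V C Q₀ : ℕ, ∀ Q : ℕ, Q₀ ≤ Q → ∀ (M : ℕ) [NeZero M],
      (Q : ℝ) ^ (1 / 3 : ℝ) * Real.log Q ^ C ≤ M → M ≤ Q →
      ∀ (ι : Type) (s : Finset ι) (y : ι → ZMod M), Flat M (1 / Real.log Q ^ V) s y → ∀ c : ℤ, |(c : ℝ)| ≤ Q →
        ((s.filter fun i => ¬ GoodPlace ε J W Q (c + κ * ((y i).val : ℕ))).card : ℝ) ≤ s.card / Real.log Q ^ U) ∧
    (∀ (d : ℕ), 1 ≤ d → ∀ (b J W U : ℕ) (ε : ℝ), 0 < ε → ∃ C Q₀ : ℕ, ∀ Q : ℕ, Q₀ ≤ Q → ∀ (F : Polynomial ℤ) (K : ℕ),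
      F.natDegree = d → |(F.leadingCoeff : ℝ)| ≤ Real.log Q ^ b →
      (Q : ℝ) ^ (1 / 3 : ℝ) * Real.log Q ^ C ≤ (K : ℝ) ^ d → (∀ k : ℕ, k < K → |F.eval (k : ℤ)| ≤ Q) →
        (((range K).filter fun k : ℕ => ¬ GoodPlace ε J W Q (F.eval (k : ℤ))).card : ℝ) ≤ K / Real.log Q ^ U) ∧
    (∀ V : ℕ, ∃ P₀ : ℕ, ∀ p : ℕ, P₀ ≤ p → ∀ [Fact p.Prime], ∀ R S : ℕ, Real.log p ^ (V + 4) ≤ R → R < p → R ^ 2 ≤ S →
      Flat p (1 / Real.log p ^ V) (((Icc 1 R).filter Nat.Prime) ×ˢ range S)
        (fun z => ((z.2 : ℕ) : ZMod p) * ((z.1 : ℕ) : ZMod p)⁻¹)) := by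
  refine ⟨fun κ hκ J W U ε hε => ?_, fun d hd b J W U ε hε => ?_, fun V => Pool.Agent.N384.MQ.flat_quot V⟩
  · obtain ⟨V, C, Q₀, hmain⟩ := Pool.Agent.Run7.h27.MK.short_mult κ hκ 1 J W U (min ε (1 / 200)) (lt_min hε (by norm_num))
    obtain ⟨Q₂, h2⟩ := eventually_atTop.1 ((Pool.Agent.Run7.h27.MK.ev_logM W 3 (by norm_num)).and
      (Pool.Agent.Run7.h27.MK.ev_ge 2))
    refine ⟨V, C, Q₀ + Q₂, fun Q hQ M _ hM1 hM2 ι s y hf c hc => ?_⟩
    obtain ⟨g1, g2⟩ := h2 Q (by omega)
    refine le_trans (Nat.cast_le.2 (card_le_card fun n hn => ?_)) (hmain Q (by omega) M hM1 hM2 ι s y hf c hc)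
    rw [mem_filter] at hn ⊢
    exact ⟨hn.1, fun hcon => hn.2 (good_of (by linarith) g1 hcon)⟩
  · obtain ⟨C, Q₀, hmain⟩ := Pool.Agent.Run7.h27.MK.poly_mult d hd b 1 J W U (min ε (1 / 200)) (lt_min hε (by norm_num))
    obtain ⟨Q₂, h2⟩ := eventually_atTop.1 ((Pool.Agent.Run7.h27.MK.ev_logM W 3 (by norm_num)).and
      (Pool.Agent.Run7.h27.MK.ev_ge 2))
    refine ⟨C, Q₀ + Q₂, fun Q hQ F K hF hlc hK hval => ?_⟩
    obtain ⟨g1, g2⟩ := h2 Q (by omega)
    refine le_trans (Nat.cast_le.2 (card_le_card fun n hn => ?_)) (hmain Q (by omega) F K hF hlc hK hval)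
    rw [mem_filter] at hn ⊢
    exact ⟨hn.1, fun hcon => hn.2 (good_of (by linarith) g1 hcon)⟩

end Pool.Agent.Results.MP_92f640_nt.ShortFamilies
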