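import Pool.Agent.Run7.h710.TR.Cnt
import Pool.Agent.Results.MP_dd84fd_nt.QuadraticNeighbourhoods

/-!
# Goldbach representations of the multiples of all the moduli near the integers written by a transducer

The integers `v < a ^ k` are arbitrary, up to few exceptions; the transducer `T` reads the digits of `v` in base `a` and
writes the digits of `T(v)` in base `b` (definitions in `Pool.Agent.Run7.h710.TR.Defs`).

Method: if two words of `L` digits lead from the same state to the same state and different words are written, then the two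
parts of the exponential sum over the integers `T(v)` which belong to these words cancel in part at the places where the
frequency has a digit which is not extremal. From the starting files: the circle method for the representations in
windows (`Pool.Agent.Y885`, `Pool.Agent.W93.PG`), in a generic form: `Pool.Agent.N625.PT.t_windows`.

Definitions used (in `Pool.Agent.H560R3.GB`): `C₂`: the twin prime constant `∏_{p > 2} (1 - 1 / (p - 1) ^ 2)`; `sing m`:
the singular series `2 C₂ ∏_{p ∣ m, p > 2} (p - 1) / (p - 2)`.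

Examples: the bitwise conjunction or disjunction of `v` and `m v` (the carries are the states); the integer whose digit `i`
is `f(x_i, x_{i+1}, …, x_{i+r})`, where `x_i` are the digits of `v` and `f` is not constant (one-sided cellular automata).
-/

set_option autoImplicit false

namespace Pool.Agent.Results.MP_92f640_nt.TransducerModuli

open Finset Pool.Agent.H560R3.GB Pool.Agent.Run7.h710.TR

/-- `g n ≥ 1.3 n / log ^ 2 n`, and `g n` is `sing n * n / log ^ 2 n` up to a relative error of at most `ε`. -/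
def Rep (ε : ℝ) (n : ℕ) : Prop :=
  13 / 10 * ((n : ℝ) / Real.log n ^ 2) ≤ g n ∧
    |(g n : ℝ) - sing n * ((n : ℝ) / Real.log n ^ 2)| ≤ ε * (sing n * ((n : ℝ) / Real.log n ^ 2))

lemma rep_of (ε : ℝ) (m : ℕ) (hm : 3 ≤ m) (hw : Pool.Agent.W93.PG.WinP (min ε (1 / 200)) 1 m) : Rep ε m := by
  obtain ⟨h1, h2⟩ := MP_dd84fd_nt.QuadraticNeighbourhoods.holds_of 1 ε m hm hw
  refine ⟨h1, ?_⟩
  have hmr : (3 : ℝ) ≤ m := by exact_mod_cast hm
  have hlog : 1 ≤ Real.log m := by
    rw [Real.le_log_iff_exp_le (by linarith)]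
    linarith [Real.exp_one_lt_d9]
  have h3 := (h2 0 m (by omega) le_rfl (by
    rw [Nat.cast_zero, sub_zero]
    exact div_le_self (by linarith) (one_le_pow₀ hlog))).2
  rw [MP_dd84fd_nt.QuadraticNeighbourhoods.G_full, Nat.cast_zero, sub_zero] at h3
  exact h3

open Classical in
/-- **The multiples of the moduli near `c + κ T(v)`.** Let `a`, `b ≥ 2`, `L ≥ 1`, `κ ≠ 0`, `B`, `J`, `W`, `U` and `ε > 0` be
fixed and let `k` be large. Let an arbitrary transducer be given which reads digits `< a` and writes digits `< b` (with finitely or infinitely many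
states) such that from every state two words of `L` digits lead to the same state, while different words are written; let it
begin in an arbitrary state `s` and read from the left or from the right,
and let `c` be any integer with `|c| ≤ B b ^ k` (`k` must be large in terms of the fixed numbers only). Then all the
`v < a ^ k`, with at most `a ^ k / k ^ U` exceptions, have the following property, where `T(v)` is the integer which is
written when `v` is read: ALL the integers `q ≥ 1` at a distance of at most `k ^ W` from `c + κ T(v)` have no exceptional even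
multiples up to `k ^ J q`: every even integer `n` with `0 < n ≤ k ^ J q` and `q ∣ n` satisfies `Rep ε n`. -/
theorem result (a b L : ℕ) (hb : 2 ≤ b) (hL : 1 ≤ L) (κ : ℤ) (hκ : κ ≠ 0) (B J W U : ℕ) (ε : ℝ) (hε : 0 < ε) :
    ∃ k₀ : ℕ, ∀ k : ℕ, k₀ ≤ k → ∀ (S : Type) (δ : S → ℕ → S) (o : S → ℕ → ℕ), Transducer a b L δ o →
      ∀ (left : Bool) (s : S) (c : ℤ), |c| ≤ B * (b : ℤ) ^ k →
      (((range (a ^ k)).filter fun v => ¬ ∀ q : ℕ, 1 ≤ q → |(q : ℤ) - (c + κ * (image a b δ o left k s v : ℕ))| ≤ (k : ℤ) ^ W →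
        ∀ n : ℕ, 0 < n → Even n → q ∣ n → n ≤ k ^ J * q → Rep ε n).card : ℝ) ≤ (a : ℝ) ^ k / (k : ℝ) ^ U := by
  obtain ⟨k₀, hmain⟩ := Pool.Agent.N625.PT.t_windows (tr_tcls a b L hb hL κ hκ) B J W 1 U 3 (min ε (1 / 200))
    (lt_min hε (by norm_num)) (Rep ε) (fun m hm _ hw => rep_of ε m hm hw)
  refine ⟨k₀, fun k hk S δ o hT left s c hc => ?_⟩
  refine exceptions hb hT left k s (fun v => ∀ q : ℕ, 1 ≤ q → |(q : ℤ) - (c + κ * (v : ℕ))| ≤ (k : ℤ) ^ W →
    ∀ n : ℕ, 0 < n → Even n → q ∣ n → n ≤ k ^ J * q → Rep ε n) U ?_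
  refine hmain k hk _ ⟨S, δ, o, left, s, hT, rfl⟩ c hc (fun v => ∀ q : ℕ, 1 ≤ q → |(q : ℤ) - (c + κ * v)| ≤ (k : ℤ) ^ W →
        ∀ n : ℕ, 0 < n → Even n → q ∣ n → n ≤ k ^ J * q → Rep ε n) ?_
  intro v hv
  push Not at hv
  obtain ⟨q, hq1, hq2, n, hn0, hev, ⟨h, rfl⟩, hn2, hbad⟩ := hv
  have hh1 : 1 ≤ h := by
    rcases Nat.eq_zero_or_pos h with rfl | h0
    · simp at hn0
    · exact h0
  have hh2 : h ≤ k ^ J := by
    rw [mul_comm] at hn2
    exact Nat.le_of_mul_le_mul_right hn2 hq1
  refine ⟨h, hh1, hh2, (q : ℤ) - (c + κ * v), hq2, ?_⟩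
  have e : (h : ℤ) * (c + ((q : ℤ) - (c + κ * v)) + κ * v) = ((q * h : ℕ) : ℤ) := by
    push_cast
    ring
  rw [e]
  refine ⟨by exact_mod_cast hn0, by exact_mod_cast hev.two_dvd, ?_⟩
  rw [Int.toNat_natCast]
  exact hbad

end Pool.Agent.Results.MP_92f640_nt.TransducerModuli
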