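import Pool.Agent.Run7.h844.RP.Main2
import Pool.Agent.Results.MP_92f640_nt.ResidueFamilies

/-!
# Goldbach representations of the multiples of all the moduli near the values of generalised polynomials at primes

The statement uses the following definitions from `Pool.Agent.H560R3.GB`: `g m`: the number of ordered representations of
`m` as a sum of two primes; `sing m`: the singular series `2 C₂ ∏_{p ∣ m, p > 2} (p - 1) / (p - 2)`, where
`C₂ = ∏_{p > 2} (1 - 1 / (p - 1) ^ 2)`.

Method: exponential sums over primes with the phase of a generalised polynomial: derivative bounds uniform in the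
coefficients, van der Corput differencing of all orders, bilinear sums, Vaughan's identity (after `Pool.Agent.H895R3.NK`,
`Pool.Agent.H373R2.T7`); a discrete Fejér kernel for the passage from real numbers to their integer parts, and a kernel
estimate for the concentration on short intervals which needs only the large frequencies (library
`Pool.Agent.Run7.h844.RP`, after `Pool.Agent.N384.MQ`, `Pool.Agent.N193.PS`). The large spectrum of all the
multiples is thin, and the passage from such exponential sums to Goldbach representations of all the multiples of almost all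
moduli is from the starting files (`Pool.Agent.Y958`, `Pool.Agent.Y885`), in a generic form: `Pool.Agent.N625.PT`.
-/

set_option autoImplicit false

namespace Pool.Agent.Results.MP_92f640_nt.ValuesAtPrimes

open Finset Pool.Agent.H560R3.GB

/-- The generalised polynomial `∑ a x * t ^ x`, `x ∈ F`, with real exponents and coefficients. -/
noncomputable def genPoly (F : Finset ℝ) (a : ℝ → ℝ) (t : ℝ) : ℝ := ∑ x ∈ F, a x * t ^ x

/-- `c` is the largest exponent; it is positive and not an integer, and its coefficient is not zero. -/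
def Leading (F : Finset ℝ) (a : ℝ → ℝ) (c : ℝ) : Prop :=
  c ∈ F ∧ (∀ x ∈ F, x ≤ c) ∧ 0 < c ∧ (∀ m : ℕ, c ≠ m) ∧ a c ≠ 0

/-- `g n ≥ 1.3 n / log ^ 2 n`, and `g n` is `sing n * n / log ^ 2 n` up to a relative error of at most `ε`. -/
def Rep (ε : ℝ) (n : ℕ) : Prop :=
  13 / 10 * ((n : ℝ) / Real.log n ^ 2) ≤ g n ∧
    |(g n : ℝ) - sing n * ((n : ℝ) / Real.log n ^ 2)| ≤ ε * (sing n * ((n : ℝ) / Real.log n ^ 2))

/-- The modulus `q` has no exceptional even multiples up to `y q`: every even integer `n` with `0 < n ≤ y q` and `q ∣ n`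
satisfies `Rep ε n`. -/
def NoExceptions (ε y : ℝ) (q : ℕ) : Prop := ∀ n : ℕ, 0 < n → Even n → q ∣ n → (n : ℝ) ≤ y * q → Rep ε n

/-- `NoExceptions` up to `H q` for all the integers `q > 0` at a distance of at most `R` from the real number `y`. -/
def Near (ε H R y : ℝ) : Prop := ∀ q : ℕ, 0 < q → |(q : ℝ) - y| ≤ R → NoExceptions ε H q

open Classical in
/-- Let `f` be a generalised polynomial whose largest exponent `c` is positive and not an integer, and let `J`, `W`, `U` and
`ε > 0` be fixed. If `X` is large and `z` is any real number with `|z| ≤ X ^ c`, then all the primes `X < p ≤ 2 X`, with at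
most `X / log ^ U X` exceptions, have the following property: ALL the moduli `q > 0` at a distance of at most `log ^ W X` from
`f(p) + z` have no exceptional even multiples up to `q log ^ J X`: every even `m` with `0 < m ≤ q log ^ J X` and `q ∣ m` is the
sum of two primes in at least `1.3 m / log ^ 2 m` ways, and in the number of ways which Hardy and Littlewood expect up to a
relative error of at most `ε`. -/
theorem result (F : Finset ℝ) (a : ℝ → ℝ) (c : ℝ) (hF : Leading F a c) (J W U : ℕ) (ε : ℝ) (hε : 0 < ε) :
    ∃ X₀ : ℕ, ∀ X : ℕ, X₀ ≤ X → ∀ z : ℝ, |z| ≤ (X : ℝ) ^ c →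
      (((Ioc X (2 * X)).filter fun p : ℕ =>
        p.Prime ∧ ¬ Near ε (Real.log X ^ J) (Real.log X ^ W) (genPoly F a p + z)).card : ℝ) ≤ X / Real.log X ^ U := by
  obtain ⟨X₀, h0⟩ := Pool.Agent.Run7.h844.RP.mult_primes F c hF.1 hF.2.2.2.1 hF.2.2.1 hF.2.1 a hF.2.2.2.2 J 1 W U 3
    (min ε (1 / 200)) (lt_min hε (by norm_num)) (Rep ε)
    (fun m hm _ hw => Pool.Agent.Results.MP_92f640_nt.ResidueFamilies.rep_of ε m hm hw)
  refine ⟨X₀, fun X hX z hz => ?_⟩
  refine le_trans ?_ (h0 X hX z hz)
  apply Pool.Agent.Run7.h844.RP.card_filter_mono'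
  intro p _ hp
  refine ⟨hp.1, fun hcon => hp.2 ?_⟩
  rintro q hq1 hq2 m hm0 hm2 ⟨h, rfl⟩ hmq
  have hq0 : (0 : ℝ) < q := by exact_mod_cast hq1
  have hh1 : 1 ≤ h := by
    rcases Nat.eq_zero_or_pos h with rfl | h0
    · simp at hm0
    · exact h0
  have hh2 : (h : ℝ) ≤ Real.log X ^ J := by
    push_cast at hmq
    rw [mul_comm] at hmq
    exact le_of_mul_le_mul_right hmq hq0
  rw [mul_comm] at hm2 ⊢
  exact hcon q hq1 hq2 h hh1 hh2 hm2.two_dvd

end Pool.Agent.Results.MP_92f640_nt.ValuesAtPrimes
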